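import Mathlib

set_option autoImplicit false

namespace Pool.Agent.H.MP_75f2a2_co

/-- weakly monotone in the first index, whatever the second indices -/
def Wk (x : Fin 3 → Fin 3 → ℝ) : Prop :=
  (∀ i i' j j', i < i' → x i j ≤ x i' j') ∨ (∀ i i' j j', i < i' → x i' j' ≤ x i j)

/-- strictly monotone in the first index, whatever the second indices -/
def St (x : Fin 3 → Fin 3 → ℝ) : Prop :=
  (∀ i i' j j', i < i' → x i j < x i' j') ∨ (∀ i i' j j', i < i' → x i' j' < x i j)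

def Two (P : Fin 3 → Prop) : Prop := ∃ c c', c ≠ c' ∧ P c ∧ P c'

theorem St.wk {x : Fin 3 → Fin 3 → ℝ} (h : St x) : Wk x := by
  rcases h with h | h
  · exact Or.inl fun i i' j j' hi => (h i i' j j' hi).le
  · exact Or.inr fun i i' j j' hi => (h i i' j j' hi).le

theorem Wk.aff {x : Fin 3 → Fin 3 → ℝ} (h : Wk x) {s : ℝ} (hs : s = 1 ∨ s = -1) :
    Wk (fun i j => s * x i j + 1) := by
  rcases hs with rfl | rfl <;> rcases h with h | h
  · exact Or.inl fun i i' j j' hi => by have := h i i' j j' hi; dsimp only; linarith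
  · exact Or.inr fun i i' j j' hi => by have := h i i' j j' hi; dsimp only; linarith
  · exact Or.inr fun i i' j j' hi => by have := h i i' j j' hi; dsimp only; linarith
  · exact Or.inl fun i i' j j' hi => by have := h i i' j j' hi; dsimp only; linarith

theorem St.aff {x : Fin 3 → Fin 3 → ℝ} {s : ℝ} (h : St (fun i j => s * x i j))
    (hs : s = 1 ∨ s = -1) : St x := by
  rcases hs with rfl | rfl <;> rcases h with h | h
  · exact Or.inl fun i i' j j' hi => by have := h i i' j j' hi; dsimp only at this; linarith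
  · exact Or.inr fun i i' j j' hi => by have := h i i' j j' hi; dsimp only at this; linarith
  · exact Or.inr fun i i' j j' hi => by have := h i i' j j' hi; dsimp only at this; linarith
  · exact Or.inl fun i i' j j' hi => by have := h i i' j j' hi; dsimp only at this; linarith

/-- position of the first argument among the two -/
def al (i i' : Fin 3) : Fin 2 := if i ≤ i' then 0 else 1

/-- homogeneity of a relation between two grid positions -/
def Hom (W : Fin 3 → Fin 3 → Fin 3 → Fin 3 → Prop) : Prop :=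
  ∀ i j i' j' k l k' l', al i i' = al k k' → al i' i = al k' k → al j j' = al l l' →
    al j' j = al l' l → W i j i' j' → W k l k' l'

theorem mid (j j' : Fin 3) : ∃ l : Fin 3, al j j' = al l 1 ∧ al j' j = al 1 l := by
  revert j j'; decide

theorem al_lt {i i' k k' : Fin 3} (h : i < i') (h' : k < k') :
    al i i' = al k k' ∧ al i' i = al k' k := by
  revert i i' k k'; decide

theorem up_of {X Y : Fin 3 → Fin 3 → ℝ} (hle : ∀ i j, Y i j ≤ X i j)
    (hh : Hom fun i j i' j' => X i j < Y i' j') (hw : Wk X) {i j i' j' : Fin 3} (hi : i < i')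
    (h : X i j < Y i' j') : ∀ k l k' l', k < k' → X k l < Y k' l' := by
  have hinc : ∀ i i' j j', i < i' → X i j ≤ X i' j' := by
    rcases hw with hw | hw
    · exact hw
    · exact absurd (hw i i' j j' hi) (not_le.mpr (lt_of_lt_of_le h (hle _ _)))
  obtain ⟨m, hm1, hm2⟩ := mid j j'
  have a12 := al_lt hi (show (1 : Fin 3) < 2 by decide)
  have h1 : X 1 m < Y 2 1 := hh i j i' j' 1 m 2 1 a12.1 a12.2 hm1 hm2 h
  intro k l k' l' hk
  obtain ⟨n, hn1, hn2⟩ := mid l l'
  have a02 := al_lt (show (0 : Fin 3) < 2 by decide) hk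
  exact hh 0 n 2 1 k l k' l' a02.1 a02.2 hn1.symm hn2.symm
    (lt_of_le_of_lt (hinc 0 1 n m (by decide)) h1)

theorem dn_of {X Y : Fin 3 → Fin 3 → ℝ} (hle : ∀ i j, Y i j ≤ X i j)
    (hh : Hom fun i j i' j' => X i j < Y i' j') (hw : Wk X) {i j i' j' : Fin 3} (hi : i' < i)
    (h : X i j < Y i' j') : ∀ k l k' l', k' < k → X k l < Y k' l' := by
  have hdec : ∀ i i' j j', i < i' → X i' j' ≤ X i j := by
    rcases hw with hw | hw
    · exact absurd (hw i' i j' j hi) (not_le.mpr (lt_of_lt_of_le h (hle _ _)))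
    · exact hw
  obtain ⟨m, hm1, hm2⟩ := mid j j'
  have a12 := al_lt hi (show (0 : Fin 3) < 1 by decide)
  have h1 : X 1 m < Y 0 1 := hh i j i' j' 1 m 0 1 a12.2 a12.1 hm1 hm2 h
  intro k l k' l' hk
  obtain ⟨n, hn1, hn2⟩ := mid l l'
  have a02 := al_lt (show (0 : Fin 3) < 2 by decide) hk
  exact hh 2 n 0 1 k l k' l' a02.2 a02.1 hn1.symm hn2.symm
    (lt_of_le_of_lt (hdec 1 2 m n (by decide)) h1)

theorem third (c c' : Fin 3) (h : c ≠ c') : ∃ d : Fin 3, ∀ e, e ≠ c → e ≠ c' → e = d := by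
  revert c c'; decide

theorem step0 {X Y : Fin 3 → Fin 3 → Fin 3 → ℝ} (hle : ∀ c i j, Y c i j ≤ X c i j)
    (hh : ∀ c, Hom fun i j i' j' => X c i j < Y c i' j')
    (hsep : ∀ i j i' j', i ≠ i' → ∃ c, X c i j < Y c i' j')
    (hw : Two fun c => Wk (X c)) : Two fun c => St (Y c) := by
  obtain ⟨c, c', hcc, hc, hc'⟩ := hw
  obtain ⟨d, hd⟩ := third c c' hcc
  have hup : ∃ e, ∀ k l k' l', k < k' → X e k l < Y e k' l' := by
    by_contra hno
    refine hno ⟨d, fun k l k' l' hk => ?_⟩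
    obtain ⟨e, he⟩ := hsep k l k' l' hk.ne
    have h1 : e ≠ c := fun h => hno ⟨c, up_of (hle c) (hh c) hc hk (h ▸ he)⟩
    have h2 : e ≠ c' := fun h => hno ⟨c', up_of (hle c') (hh c') hc' hk (h ▸ he)⟩
    exact hd e h1 h2 ▸ he
  have hdn : ∃ e, ∀ k l k' l', k' < k → X e k l < Y e k' l' := by
    by_contra hno
    refine hno ⟨d, fun k l k' l' hk => ?_⟩
    obtain ⟨e, he⟩ := hsep k l k' l' hk.ne'
    have h1 : e ≠ c := fun h => hno ⟨c, dn_of (hle c) (hh c) hc hk (h ▸ he)⟩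
    have h2 : e ≠ c' := fun h => hno ⟨c', dn_of (hle c') (hh c') hc' hk (h ▸ he)⟩
    exact hd e h1 h2 ▸ he
  obtain ⟨e, he⟩ := hup
  obtain ⟨e', he'⟩ := hdn
  refine ⟨e, e', ?_, Or.inl fun i i' j j' hi => ?_, Or.inr fun i i' j j' hi => ?_⟩
  · rintro rfl
    have h1 := he 0 0 1 0 (by decide)
    have h2 := he' 1 0 0 0 (by decide)
    have h3 := hle e 0 0
    have h4 := hle e 1 0
    linarith
  · exact lt_of_le_of_lt (hle e i j) (he i j i' j' hi)
  · exact lt_of_le_of_lt (hle e' i' j') (he' i' j' i j hi)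

/-- one step of a family of paths indexed by a grid -/
theorem step {x y : Fin 3 → Fin 3 → Fin 3 → ℝ} (hle : ∀ c i j, |x c i j - y c i j| ≤ 1)
    (hx : ∀ c i j i' j', ⌊x c i j⌋ = ⌊x c i' j'⌋) (hy : ∀ c i j i' j', ⌊y c i j⌋ = ⌊y c i' j'⌋)
    (hh : ∀ c (s : ℝ), s = 1 ∨ s = -1 → Hom fun i j i' j' => s * x c i j + 1 < s * y c i' j')
    (hsep : ∀ i j i' j', i ≠ i' → ¬ ∀ c, |x c i j - y c i' j'| ≤ 1)
    (hw : Two fun c => Wk (x c)) : Two fun c => St (y c) := by
  have hs : ∀ c, ∃ s : ℝ, (s = 1 ∨ s = -1) ∧ ∀ i j i' j', ¬ |x c i j - y c i' j'| ≤ 1 →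
      s * x c i j + 1 < s * y c i' j' := by
    intro c
    by_cases h : ⌊x c 0 0⌋ ≤ ⌊y c 0 0⌋
    · refine ⟨1, Or.inl rfl, fun i j i' j' hn => ?_⟩
      rw [hx c 0 0 i j, hy c 0 0 i' j'] at h
      have h1 : ((⌊x c i j⌋ : ℤ) : ℝ) ≤ ((⌊y c i' j'⌋ : ℤ) : ℝ) := by exact_mod_cast h
      have h2 := Int.lt_floor_add_one (x c i j)
      have h3 := Int.floor_le (y c i' j')
      rw [abs_le] at hn
      by_contra h4
      exact hn ⟨by linarith, by linarith⟩
    · refine ⟨-1, Or.inr rfl, fun i j i' j' hn => ?_⟩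
      rw [hx c 0 0 i j, hy c 0 0 i' j'] at h
      have h1 : ((⌊y c i' j'⌋ : ℤ) : ℝ) + 1 ≤ ((⌊x c i j⌋ : ℤ) : ℝ) := by
        have : ⌊y c i' j'⌋ + 1 ≤ ⌊x c i j⌋ := by omega
        exact_mod_cast this
      have h2 := Int.lt_floor_add_one (y c i' j')
      have h3 := Int.floor_le (x c i j)
      rw [abs_le] at hn
      by_contra h4
      exact hn ⟨by linarith, by linarith⟩
  choose s hs1 hs2 using hs
  have key := step0 (X := fun c i j => s c * x c i j + 1) (Y := fun c i j => s c * y c i j)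
    (fun c i j => by
      have := abs_le.mp (hle c i j)
      rcases hs1 c with h | h <;> rw [h] <;> linarith [this.1, this.2])
    (fun c => hh c (s c) (hs1 c))
    (fun i j i' j' hi => by
      have := hsep i j i' j' hi
      push Not at this
      obtain ⟨c, hc⟩ := this
      exact ⟨c, hs2 c i j i' j' (not_le.mpr hc)⟩)
    (by
      obtain ⟨c, c', hcc, hc, hc'⟩ := hw
      exact ⟨c, c', hcc, hc.aff (hs1 c), hc'.aff (hs1 c')⟩)
  obtain ⟨c, c', hcc, hc, hc'⟩ := key
  exact ⟨c, c', hcc, hc.aff (hs1 c), hc'.aff (hs1 c')⟩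

theorem chain {r : ℕ} (hr : 0 < r) {x : ℕ → Fin 3 → Fin 3 → Fin 3 → ℝ}
    (hle : ∀ t c i j, |x t c i j - x (t + 1) c i j| ≤ 1)
    (hx : ∀ t ≤ r, ∀ c i j i' j', ⌊x t c i j⌋ = ⌊x t c i' j'⌋)
    (hh : ∀ t < r, ∀ c (s : ℝ), s = 1 ∨ s = -1 →
      Hom fun i j i' j' => s * x t c i j + 1 < s * x (t + 1) c i' j')
    (hsep : ∀ t < r, ∀ i j i' j', i ≠ i' → ¬ ∀ c, |x t c i j - x (t + 1) c i' j'| ≤ 1)
    (hw : ∀ c, Wk (x 0 c)) : Two fun c => St (x r c) := by
  have key : ∀ t < r, Two fun c => St (x (t + 1) c) := by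
    intro t
    induction t with
    | zero =>
      intro ht
      exact step (hle 0) (hx 0 ht.le) (hx 1 ht) (hh 0 ht) (hsep 0 ht)
        ⟨0, 1, (by decide), hw 0, hw 1⟩
    | succ t ih =>
      intro ht
      obtain ⟨c, c', hcc, hc, hc'⟩ := ih (by omega)
      exact step (hle _) (hx _ ht.le) (hx _ ht) (hh _ ht) (hsep _ ht) ⟨c, c', hcc, hc.wk, hc'.wk⟩
  obtain ⟨t, rfl⟩ : ∃ t, r = t + 1 := ⟨r - 1, by omega⟩
  exact key t (by omega)

theorem clash {q : Fin 3 → Fin 3 → Fin 3 → ℝ} (h1 : Two fun c => St (q c))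
    (h2 : Two fun c => St fun j i => q c i j) : False := by
  obtain ⟨a, a', haa, ha, ha'⟩ := h1
  obtain ⟨b, b', hbb, hb, hb'⟩ := h2
  have key : ∀ c, St (q c) → St (fun j i => q c i j) → False := by
    intro c h h'
    rcases h with h | h <;> rcases h' with h' | h'
    · exact lt_asymm (h 0 1 1 0 (by decide)) (h' 0 1 1 0 (by decide))
    · exact lt_asymm (h 0 1 0 1 (by decide)) (h' 0 1 0 1 (by decide))
    · exact lt_asymm (h 0 1 0 1 (by decide)) (h' 0 1 0 1 (by decide))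
    · exact lt_asymm (h 0 1 1 0 (by decide)) (h' 0 1 1 0 (by decide))
  have : ∀ a a' b b' : Fin 3, a ≠ a' → b ≠ b' → a = b ∨ a = b' ∨ a' = b ∨ a' = b' := by decide
  rcases this a a' b b' haa hbb with rfl | rfl | rfl | rfl
  · exact key _ ha hb
  · exact key _ ha hb'
  · exact key _ ha' hb
  · exact key _ ha' hb'

end Pool.Agent.H.MP_75f2a2_co
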